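import Pool.Agent.helper17.EXT.Spec

set_option autoImplicit false

open Finset

namespace Pool.Agent.EXT

open Pool.Agent.EXC

theorem PLF_smul {K : Type} [Field K] (c t : K) (a v : Lm C6 K) : xe C6 (c • a) t v = xe C6 a (c * t) v := by
  unfold xe
  rw [br_smul_left, fm_smul_left, smul_smul, smul_smul]
  have e1 : t * c = c * t := mul_comm _ _
  have e2 : t ^ 2 * (c * fm C6 a v) * c = (c * t) ^ 2 * fm C6 a v := by ring
  rw [e1, e2]

theorem PLF_pln_add {K : Type} [Field K] (c d : Fin 3 → K) : (pln (c + d) : Lm C6 K) = pln c + pln d := by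
  unfold pln
  simp only [Pi.add_apply, add_smul]
  abel

theorem PLF_pln_smul {K : Type} [Field K] (s : K) (c : Fin 3 → K) : (pln (s • c) : Lm C6 K) = s • pln c := by
  unfold pln
  simp only [Pi.smul_apply, smul_eq_mul, mul_smul, smul_add]

theorem PLF_pln_zero {K : Type} [Field K] : (pln (0 : Fin 3 → K) : Lm C6 K) = 0 := by
  unfold pln
  simp

theorem PLF_xe_zero {K : Type} [Field K] (t : K) (v : Lm C6 K) : xe C6 0 t v = v := by
  simp [xe]

theorem PLF_xe_zero' {K : Type} [Field K] (a v : Lm C6 K) : xe C6 a 0 v = v := by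
  simp [xe]

/-- sums of two vectors of type 1 -/
theorem PLF_th : LR th := ⟨by decide +kernel, by decide +kernel⟩

theorem PLF_pv_sub (v w : Fin 6 → ℤ) : pv (v - w) = pv v - pv w := rfl

theorem PLF_sum (hTFS : TFS_stmt) (hESF : ESF_stmt) (K : Type) [Field K] (τ : K ≃+* K) (hτ : ∀ x, τ (τ x) = x)
    (a b : Lm C6 K) (hab : TpS τ a b 1) :
    ExS τ (a + b) ∧ ∀ u, xe C6 a 1 (xe C6 b 1 u) = xe C6 (a + b) 1 u := by
  obtain ⟨hEx, hF⟩ := hESF K τ hτ
  obtain ⟨ha, hb, -⟩ := hTFS K τ hτ a b 1 hab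
  obtain ⟨k, hk, β, hβ, hθβ, c, c', hcτ, hc'τ, hc, hc', hka, hkb⟩ := hab
  have hth := PLF_th
  have hth2 : ip C6 th th = 2 := hth.1
  have hβ2 : ip C6 β β = 2 := hβ.1
  have hγ : ip C6 (th - β) (th - β) = 2 := (sub_root_iff hth2 hβ2).2 hθβ
  have hγβ : ip C6 (th - β) β = -1 := by rw [ip_sub_left, hθβ, hβ2]; norm_num
  have hγL : LR (th - β) := ⟨hγ, by rw [PLF_pv_sub, hth.2, hβ.2]⟩
  have hsumk : k (a + b) = c • E C6 th + c' • E C6 β := by rw [map_add, hka, hkb]
  have hExk : ExS τ (k (a + b)) := by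
    rw [hsumk]
    have hX := (hF (E C6 (th - β)) (hEx _ hγL)).2.2.2.2.2.1
    set ε : K := (sg C6 (th - β) β : K) with hε
    have hετ : τ (ε * c / c') = ε * c / c' := by
      rw [map_div₀, map_mul, hcτ, hc'τ, hε, map_intCast]
    obtain ⟨h, hh, hhX⟩ := hX (ε * c / c') hετ
    refine ⟨h, hh, β, hβ, c', hc'τ, hc', ?_⟩
    rw [hhX, (f_ACT 6 C6 K (th - β) _ hγ).2.1 β hβ2 hγβ, sub_add_cancel, ← hε, smul_add, smul_smul, add_comm]
    congr 2
    have h2 : ε * ε = 1 := sg_sq C6 _ _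
    field_simp
    linear_combination -h2
  have hsum : ExS τ (a + b) := by
    have h3 := (hF _ hExk).2.2.2.1 k⁻¹ (inv_mem hk)
    have h4 : k⁻¹ (k (a + b)) = a + b := LinearEquiv.symm_apply_apply k (a + b)
    rwa [h4] at h3
  refine ⟨hsum, ?_⟩
  intro u
  obtain ⟨x1, -, hx1⟩ := (hF a ha).2.2.2.2.2.1 1 (map_one τ)
  obtain ⟨x2, -, hx2⟩ := (hF b hb).2.2.2.2.2.1 1 (map_one τ)
  obtain ⟨x3, -, hx3⟩ := (hF (a + b) hsum).2.2.2.2.2.1 1 (map_one τ)
  have y1 := (hF a ha).2.2.2.2.2.2.2 k hk 1 x1 hx1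
  have y2 := (hF b hb).2.2.2.2.2.2.2 k hk 1 x2 hx2
  have y3 := (hF (a + b) hsum).2.2.2.2.2.2.2 k hk 1 x3 hx3
  rw [hka] at y1
  rw [hkb] at y2
  rw [hsumk] at y3
  have e1 : (k * x1 * k⁻¹) ((k * x2 * k⁻¹) (k u)) = (k * x3 * k⁻¹) (k u) := by
    rw [y1, y2, y3, ((f_COL 6 C6 K th β hth2 hβ2).1 hθβ).1, PLF_smul, PLF_smul]
  have e2 : (k * x1 * k⁻¹) ((k * x2 * k⁻¹) (k u)) = k (x1 (x2 u)) := by
    show k (x1 (k⁻¹ (k (x2 (k⁻¹ (k u)))))) = _
    have h5 : k⁻¹ (k u) = u := LinearEquiv.symm_apply_apply k u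
    rw [h5]
    have h6 : k⁻¹ (k (x2 u)) = x2 u := LinearEquiv.symm_apply_apply k (x2 u)
    rw [h6]
  have e3 : (k * x3 * k⁻¹) (k u) = k (x3 u) := by
    show k (x3 (k⁻¹ (k u))) = _
    have h5 : k⁻¹ (k u) = u := LinearEquiv.symm_apply_apply k u
    rw [h5]
  rw [e2, e3] at e1
  have e4 := k.injective e1
  rw [← hx2, ← hx1, ← hx3]
  exact e4

theorem PLF (hCLF : CLF_stmt) (hIMF : IMF_stmt) (hTFS : TFS_stmt) (hPCS : PCS_stmt) (hUNF : UNF_stmt)
    (hESF : ESF_stmt) (hGFX : GFX_stmt) (hSIG : SIG_stmt) : PLF_stmt := by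
  intro K _ _ τ hτ x hx
  obtain ⟨hExE, hF⟩ := hESF K τ hτ
  obtain ⟨-, hGX⟩ := hGFX K τ hτ
  obtain ⟨hC1, hC2, hC3⟩ := hCLF K τ hτ
  obtain ⟨-, hI3, hI4, hIT⟩ := hIMF K τ hτ x hx
  obtain ⟨hsi1, hsi2, -, -, hsi5, -⟩ := hSIG K τ hτ
  -- the field of fixed elements
  let F : Subfield K := RingHom.eqLocusField (τ : K →+* K) (RingHom.id K)
  have hFm : ∀ y : K, y ∈ F ↔ τ y = y := fun y => Iff.rfl
  have hFv : ∀ y : F, τ (y : K) = (y : K) := fun y => (hFm _).1 y.2
  have hsi0 : si τ (0 : Lm C6 K) = 0 := by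
    have := hsi2 0 0
    rwa [zero_smul, map_zero, zero_smul] at this
  -- the module of fixed vectors
  let W : Submodule F (Lm C6 K) :=
    { carrier := LT τ
      add_mem' := by
        intro v w hv hw
        show si τ (v + w) = v + w
        rw [hsi1, (show si τ v = v from hv), (show si τ w = w from hw)]
      zero_mem' := hsi0
      smul_mem' := by
        intro c v hv
        show si τ ((c : K) • v) = (c : K) • v
        rw [hsi2, hFv, (show si τ v = v from hv)] }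
  have hWm : ∀ v : Lm C6 K, v ∈ W ↔ si τ v = v := fun v => Iff.rfl
  let cc : (Fin 3 → F) → (Fin 3 → K) := fun v i => ((v i : F) : K)
  have hccadd : ∀ v w, cc (v + w) = cc v + cc w := fun v w => rfl
  have hccsmul : ∀ (c : F) v, cc (c • v) = (c : K) • cc v := fun c v => rfl
  have hcc0 : ∀ v, cc v = 0 ↔ v = 0 := by
    intro v
    constructor
    · intro h
      funext i
      exact Subtype.ext (congrFun h i)
    · rintro rfl
      rfl
  have hccτ : ∀ v i, τ (cc v i) = cc v i := fun v i => hFv (v i)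
  let ι : (Fin 3 → F) → Lm C6 K := fun v => pln (cc v)
  have hιadd : ∀ v w, ι (v + w) = ι v + ι w := by
    intro v w
    show pln (cc (v + w)) = _
    rw [hccadd, PLF_pln_add]
  have hιsmul : ∀ (c : F) v, ι (c • v) = (c : K) • ι v := by
    intro c v
    show pln (cc (c • v)) = _
    rw [hccsmul, PLF_pln_smul]
  have hιEx : ∀ v, v ≠ 0 → ExS τ (ι v) := by
    intro v hv
    exact hC1 (cc v) (hccτ v) (fun h => hv ((hcc0 v).1 h))
  have hι0 : ι 0 = 0 := PLF_pln_zero
  have hιx : ∀ v w u, xe C6 (ι v) 1 (xe C6 (ι w) 1 u) = xe C6 (ι (v + w)) 1 u := by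
    intro v w u
    show xe C6 (pln (cc v)) 1 (xe C6 (pln (cc w)) 1 u) = xe C6 (pln (cc (v + w))) 1 u
    rw [hccadd]
    exact hC3 (cc v) (cc w) u
  have hιW : ∀ v, ι v ∈ W := by
    intro v
    by_cases hv : v = 0
    · rw [hv, hι0]
      exact zero_mem W
    · exact (hF _ (hιEx v hv)).2.2.1
  -- the map `φ`
  have hφ : ∀ v : Fin 3 → F, ∃ w : Lm C6 K, (v ≠ 0 → ExS τ w ∧ ImF τ x (ι v) w) ∧ (v = 0 → w = 0) ∧
      ∃ T : GF τ, IsF τ (ι v) 1 (T : Equiv.Perm (LT τ)) ∧ IsF τ w 1 ((x T : GF τ) : Equiv.Perm (LT τ)) := by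
    intro v
    by_cases hv : v = 0
    · refine ⟨0, fun h => absurd hv h, fun _ => rfl, 1, ?_, ?_⟩
      · intro u
        rw [hv, hι0, PLF_xe_zero]
        rfl
      · intro u
        rw [map_one, PLF_xe_zero]
        rfl
    · obtain ⟨b, hb, hIm⟩ := hx (ι v) (hιEx v hv)
      obtain ⟨hX1, -, -, hXinj, -⟩ := hGX (ι v) (hιEx v hv)
      obtain ⟨T, hT, hTX⟩ := hX1 1 (map_one τ)
      obtain ⟨s, hsτ, hs⟩ := (hIm ⟨T, hT⟩).1 ⟨1, map_one τ, hTX⟩
      have hs0 : s ≠ 0 := by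
        intro hs0
        have h1 : x ⟨T, hT⟩ = 1 := by
          apply Subtype.ext
          apply Equiv.ext
          intro u
          apply Subtype.ext
          rw [hs u, hs0, PLF_xe_zero']
          rfl
        have h2 : (⟨T, hT⟩ : GF τ) = 1 := x.injective (h1.trans (map_one x).symm)
        have h3 : T = 1 := congrArg Subtype.val h2
        have h4 : IsF τ (ι v) 0 T := by
          intro u
          rw [h3, PLF_xe_zero']
          rfl
        exact one_ne_zero (hXinj _ _ _ hTX h4)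
      refine ⟨s • b, fun _ => ⟨?_, ?_⟩, fun h => absurd h hv, ⟨T, hT⟩, hTX, ?_⟩
      · exact (hF b hb).2.2.2.2.1 s hsτ hs0
      · have := hI4 (ι v) b 1 s (hιEx v hv) hb (map_one τ) hsτ one_ne_zero hs0 hIm
        rwa [one_smul] at this
      · intro u
        rw [hs u, PLF_smul, mul_one]
  choose φ hφ1 hφ0 T hTX hxT using hφ
  have hφ00 : φ 0 = 0 := hφ0 0 rfl
  have hTadd : ∀ v w : Fin 3 → F, T (v + w) = T v * T w := by
    intro v w
    apply Subtype.ext
    apply Equiv.ext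
    intro u
    apply Subtype.ext
    rw [hTX (v + w) u, ← hιx]
    show _ = (((T v : GF τ) : Equiv.Perm (LT τ)) (((T w : GF τ) : Equiv.Perm (LT τ)) u) : Lm C6 K)
    rw [hTX v, hTX w]
  -- multiples
  have hmul : ∀ (v : Fin 3 → F), v ≠ 0 → ∀ c : F, ∃ c' : K, τ c' = c' ∧ φ (c • v) = c' • φ v ∧
      IsF τ (φ v) c' ((x (T (c • v)) : GF τ) : Equiv.Perm (LT τ)) := by
    intro v hv c
    by_cases hc : c = 0
    · subst hc
      refine ⟨0, map_zero τ, ?_, ?_⟩
      · rw [zero_smul, zero_smul, hφ00]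
      · intro u
        have h1 := hxT ((0 : F) • v) u
        rw [h1, zero_smul, hφ00, PLF_xe_zero, PLF_xe_zero']
    · have hcv : c • v ≠ 0 := smul_ne_zero hc hv
      have hcK : (c : K) ≠ 0 := fun h => hc (Subtype.ext h)
      obtain ⟨hEx1, hIm1⟩ := hφ1 v hv
      obtain ⟨hEx2, hIm2⟩ := hφ1 (c • v) hcv
      have hIm3 := hI4 (ι v) (φ v) (c : K) 1 (hιEx v hv) hEx1 (hFv c) (map_one τ) hcK one_ne_zero hIm1
      rw [one_smul, ← hιsmul] at hIm3
      obtain ⟨c', hc'τ, hc', e⟩ := hI3 (ι (c • v)) (φ v) (φ (c • v)) (hιEx _ hcv) hEx1 hEx2 hIm3 hIm2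
      refine ⟨c', hc'τ, e, ?_⟩
      intro u
      rw [hxT (c • v) u, e, PLF_smul, mul_one]
  -- additivity
  have hadd : ∀ v w : Fin 3 → F, φ (v + w) = φ v + φ w := by
    intro v w
    by_cases hv : v = 0
    · subst hv
      rw [zero_add, hφ00, zero_add]
    by_cases hdep : ∃ c : F, w = c • v
    · obtain ⟨c, rfl⟩ := hdep
      obtain ⟨c1, hc1τ, e1, h1⟩ := hmul v hv c
      obtain ⟨c2, hc2τ, e2, h2⟩ := hmul v hv (1 + c)
      have e3 : v + c • v = (1 + c) • v := by rw [add_smul, one_smul]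
      obtain ⟨-, -, hXadd, hXinj, -⟩ := hGX (φ v) (hφ1 v hv).1
      have h3 : IsF τ (φ v) (1 + c1) (((x (T v) : GF τ) : Equiv.Perm (LT τ)) * ((x (T (c • v)) : GF τ) : Equiv.Perm (LT τ))) :=
        hXadd _ _ _ _ (hxT v) h1
      have h4 : ((x (T v) : GF τ) : Equiv.Perm (LT τ)) * ((x (T (c • v)) : GF τ) : Equiv.Perm (LT τ)) =
          ((x (T ((1 + c) • v)) : GF τ) : Equiv.Perm (LT τ)) := by
        rw [← e3, hTadd, map_mul]
        rfl
      rw [h4] at h3
      have h5 := hXinj _ _ _ h2 h3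
      rw [e3, e2, e1, h5, add_smul, one_smul]
    · have hw : w ≠ 0 := fun h => hdep ⟨0, by rw [h, zero_smul]⟩
      have hind : LinearIndependent K ![cc v, cc w] := by
        rw [LinearIndependent.pair_iff]
        intro s t hst
        obtain ⟨i, hi⟩ : ∃ i, v i ≠ 0 := by
          by_contra hcon
          push Not at hcon
          exact hv (funext hcon)
        have hiK : cc v i ≠ 0 := fun h => hi (Subtype.ext h)
        by_cases ht : t = 0
        · subst ht
          rw [zero_smul, add_zero] at hst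
          have := congrFun hst i
          simp only [Pi.smul_apply, smul_eq_mul, Pi.zero_apply] at this
          exact ⟨(mul_eq_zero.1 this).resolve_right hiK, rfl⟩
        · exfalso
          apply hdep
          refine ⟨w i / v i, ?_⟩
          have h6 : ∀ j, s * cc v j + t * cc w j = 0 := fun j => congrFun hst j
          funext j
          apply Subtype.ext
          show cc w j = ((w i / v i : F) : K) * cc v j
          have h7 : ((w i / v i : F) : K) = cc w i / cc v i := by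
            show ((w i / v i : F) : K) = ((w i : F) : K) / ((v i : F) : K)
            push_cast
            rfl
          rw [h7]
          have h8 := h6 i
          have h9 := h6 j
          have h10 : t * (cc w j * cc v i) = t * (cc w i * cc v j) := by
            linear_combination cc v i * h9 - cc v j * h8
          have h11 := mul_left_cancel₀ ht h10
          field_simp
          exact h11
      have hvw : v + w ≠ 0 := by
        intro h
        apply hdep
        refine ⟨-1, ?_⟩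
        rw [neg_smul, one_smul]
        exact (neg_eq_of_add_eq_zero_right h).symm
      have hT1 := hC2 (cc v) (cc w) (hccτ v) (hccτ w) hind
      have hT2 := hIT (ι v) (ι w) (φ v) (φ w) (hφ1 v hv).1 (hφ1 w hw).1 (hφ1 v hv).2 (hφ1 w hw).2 hT1
      obtain ⟨hEx, hxx⟩ := PLF_sum hTFS hESF K τ hτ _ _ hT2
      have h8 : IsF τ (φ v + φ w) 1 ((x (T (v + w)) : GF τ) : Equiv.Perm (LT τ)) := by
        intro u
        rw [hTadd, map_mul, ← hxx]
        show (((x (T v) : GF τ) : Equiv.Perm (LT τ)) (((x (T w) : GF τ) : Equiv.Perm (LT τ)) u) : Lm C6 K) = _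
        rw [hxT v, hxT w]
      have h9 := hUNF K τ hτ (φ (v + w)) (φ v + φ w) 1 _ (hφ1 _ hvw).1 hEx (hxT (v + w)) h8
      rw [h9, one_smul]
  have hφW : ∀ v, φ v ∈ W := by
    intro v
    by_cases hv : v = 0
    · rw [hv, hφ00]
      exact zero_mem W
    · exact (hF _ (hφ1 v hv).1).2.2.1
  have hfmF : ∀ v (w : W), fm C6 (ι v) (w : Lm C6 K) ∈ F := by
    intro v w
    rw [hFm, ← hsi5, (hWm _).1 (hιW v), (hWm _).1 w.2]
  -- the form
  let B : (Fin 3 → F) →ₗ[F] W →ₗ[F] F := LinearMap.mk₂ F (fun v w => ⟨fm C6 (ι v) (w : Lm C6 K), hfmF v w⟩)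
    (fun v v' w => Subtype.ext (by
      show fm C6 (ι (v + v')) (w : Lm C6 K) = fm C6 (ι v) (w : Lm C6 K) + fm C6 (ι v') (w : Lm C6 K)
      rw [hιadd, fm_add_left]))
    (fun c v w => Subtype.ext (by
      show fm C6 (ι (c • v)) (w : Lm C6 K) = (c : K) * fm C6 (ι v) (w : Lm C6 K)
      rw [hιsmul, fm_smul_left]))
    (fun v w w' => Subtype.ext (by
      show fm C6 (ι v) ((w : Lm C6 K) + (w' : Lm C6 K)) = fm C6 (ι v) (w : Lm C6 K) + fm C6 (ι v) (w' : Lm C6 K)
      rw [fm_add_right]))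
    (fun c v w => Subtype.ext (by
      show fm C6 (ι v) ((c : K) • (w : Lm C6 K)) = (c : K) * fm C6 (ι v) (w : Lm C6 K)
      rw [fm_smul_right]))
  let Φ : (Fin 3 → F) →+ W := AddMonoidHom.mk' (fun v => ⟨φ v, hφW v⟩) (fun v w => Subtype.ext (hadd v w))
  have hinj : Function.Injective Φ := by
    rw [injective_iff_map_eq_zero]
    intro v hv
    by_contra hne
    have h1 := (hF _ (hφ1 v hne).1).2.1
    exact h1 (congrArg Subtype.val hv)
  obtain ⟨v, hv, hB⟩ := f_COR F W Φ B hinj (fun c v => by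
    by_cases hv : v = 0
    · subst hv
      exact ⟨0, by rw [smul_zero, zero_smul, map_zero]⟩
    · obtain ⟨c', hc'τ, e, -⟩ := hmul v hv c
      exact ⟨⟨c', (hFm c').2 hc'τ⟩, Subtype.ext e⟩)
  have hEx1 := hιEx v hv
  obtain ⟨hEx2, hIm⟩ := hφ1 v hv
  obtain ⟨m, -, -, hTp⟩ := hPCS K τ hτ (ι v) (φ v) hEx1 hEx2
  refine ⟨ι v, φ v, m, hEx1, hEx2, hIm, hTp, ?_⟩
  intro hm
  have h2 := (hTFS K τ hτ _ _ _ hTp).2.2.2.2.2.2.1.2 hm
  exact h2 (congrArg Subtype.val hB)

end Pool.Agent.EXT
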