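import Pool.Agent.helper17.EXT.Spec

set_option autoImplicit false

open Finset

namespace Pool.Agent.EXT

open Pool.Agent.EXC

theorem UNF_smul {K : Type} [Field K] (c t : K) (a v : Lm C6 K) : xe C6 (c • a) t v = xe C6 a (c * t) v := by
  unfold xe
  rw [br_smul_left, fm_smul_left, smul_smul, smul_smul]
  have e1 : t * c = c * t := mul_comm _ _
  have e2 : t ^ 2 * (c * fm C6 a v) * c = (c * t) ^ 2 * fm C6 a v := by ring
  rw [e1, e2]

theorem UNF (hESF : ESF_stmt) (hGFX : GFX_stmt) (hPCS : PCS_stmt) (hRTF : RTF_stmt) : UNF_stmt := by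
  intro K _ τ hτ a b t f ha hb hfa hfb
  obtain ⟨m, _, _, k, hk, β, hβL, _, c, c', hcτ, hc'τ, hc, hc', hka, hkb⟩ := hPCS K τ hτ a b ha hb
  obtain ⟨-, -, -, hpneg, -, -, -, -, -, -, -, -, -, hthL, -⟩ := hRTF
  obtain ⟨hEx, hF⟩ := hESF K τ hτ
  have hθ : ip C6 th th = 2 := hthL.1
  have hβ : ip C6 β β = 2 := hβL.1
  have hnbr := (f_NBR 6 C6 1 th ![0, 2, 3, 4, 5] f_DE6.2).1
  obtain ⟨-, -, hFx, -⟩ := f_EXF 6 C6 K hnbr
  obtain ⟨h1, -, hh1⟩ := (hFx a (hF a ha).1).2.2.2.2.1 1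
  obtain ⟨h2, -, hh2⟩ := (hFx b (hF b hb).1).2.2.2.2.1 t
  have hc1 := (hF a ha).2.2.2.2.2.2.2 k hk 1 h1 hh1
  have hc2 := (hF b hb).2.2.2.2.2.2.2 k hk t h2 hh2
  rw [hka] at hc1
  rw [hkb] at hc2
  have h1' : IsX C6 (E C6 th) c (k * h1 * k⁻¹) := by
    intro v
    rw [hc1 v, UNF_smul, mul_one]
  have h2' : IsX C6 (E C6 β) (c' * t) (k * h2 * k⁻¹) := by
    intro v
    rw [hc2 v, UNF_smul]
  have hnL : LR (-th) := ⟨neg_root C6 hθ, by rw [hpneg, hthL.2]⟩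
  have hmem : (E C6 (-th) : Lm C6 K) ∈ LT τ := (hF _ (hEx (-th) hnL)).2.2.1
  obtain ⟨fk, -, hfk⟩ := (hGFX K τ hτ).1 k⁻¹ (inv_mem hk)
  have hw : ((fk ⟨E C6 (-th), hmem⟩ : LT τ) : Lm C6 K) = k⁻¹ (E C6 (-th)) := hfk ⟨E C6 (-th), hmem⟩
  have e0 : h1 (k⁻¹ (E C6 (-th))) = h2 (k⁻¹ (E C6 (-th))) := by
    rw [hh1, hh2, ← hw, ← hfa, ← hfb]
  have key : xe C6 (E C6 th) c (E C6 (-th)) = (xe C6 (E C6 β) (c' * t) (E C6 (-th)) : Lm C6 K) := by
    rw [← h1' (E C6 (-th)), ← h2' (E C6 (-th))]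
    exact congrArg k e0
  have hne : th ≠ -th := by
    intro e
    have h3 : ip C6 th th = ip C6 th (-th) := congrArg (ip C6 th) e
    rw [ip_neg_right, hθ] at h3
    omega
  obtain ⟨_, _, hA3, _, _⟩ := f_ACT 6 C6 K th c hθ
  have hβθ : β = th := by
    by_contra hbt
    obtain ⟨hB1, hB2, _, _, _⟩ := f_ACT 6 C6 K β (c' * t) hβ
    have hnθ : ip C6 (-th) (-th) = 2 := neg_root C6 hθ
    have hcf : cf (xe C6 (E C6 th) c (E C6 (-th)) : Lm C6 K) th = c ^ 2 := by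
      rw [hA3, cf_add, cf_sub, cf_smul, cf_smul, cf_ht, cf_E C6 hnθ, cf_E C6 hθ, if_neg hne, if_pos rfl]
      ring
    have hb1 := ip_abs_le (C := C6) hβ hnθ
    have hb2 : ip C6 β (-th) ≠ -2 := by
      intro e
      rw [ip_neg_right] at e
      exact hbt (eq_of_ip_eq_two hβ hθ (by omega))
    have hzero : cf (xe C6 (E C6 β) (c' * t) (E C6 (-th)) : Lm C6 K) th = 0 := by
      rcases (by omega : 0 ≤ ip C6 β (-th) ∨ ip C6 β (-th) = -1) with h0 | h0
      · rw [hB1 _ hnθ h0, cf_E C6 hnθ, if_neg hne]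
      · rw [hB2 _ hnθ h0, cf_add, cf_smul, cf_E C6 hnθ, if_neg hne]
        have hr : ip C6 (β + -th) (β + -th) = 2 := (add_root_iff hβ hnθ).2 h0
        have hn2 : th ≠ β + -th := by
          intro e
          have h3 : ip C6 th th = ip C6 th (β + -th) := congrArg (ip C6 th) e
          rw [ip_add_right, ip_neg_right, hθ, ip_comm C6 th β] at h3
          rw [ip_neg_right] at h0
          omega
        rw [cf_E C6 hr, if_neg hn2]
        ring
    rw [key, hzero] at hcf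
    exact hc (pow_eq_zero_iff (two_ne_zero) |>.1 hcf.symm)
  subst hβθ
  have hcc : c = c' * t := by
    obtain ⟨_, _, hB3, _, _⟩ := f_ACT 6 C6 K th (c' * t) hθ
    rw [hA3, hB3] at key
    have key2 := congrFun (congrArg Prod.fst key) 0
    simp only [Prod.fst_add, Prod.fst_sub, Prod.smul_fst, E_fst, ht_fst, Pi.add_apply, Pi.sub_apply,
      Pi.smul_apply, Pi.zero_apply, smul_eq_mul, mul_zero] at key2
    have h10 : ((th 0 : ℤ) : K) = 1 := by
      have : th 0 = 1 := rfl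
      rw [this, Int.cast_one]
    rw [h10] at key2
    linear_combination -key2
  have hfin : k a = k (t • b) := by
    rw [map_smul, hka, hkb, smul_smul, hcc, mul_comm]
  exact k.injective hfin

end Pool.Agent.EXT
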