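import Pool.Agent.helper17.EXT.Spec

set_option autoImplicit false

open Finset

namespace Pool.Agent.EXT

open Pool.Agent.EXC

set_option maxRecDepth 100000 in
theorem PAR_fin : ∀ β ∈ RL, pv β = β → ∃ α ∈ RL, pv α = α ∧ ip C6 β α = 1 := by
  decide +kernel

theorem PAR (hRTF : RTF_stmt) (hWST : WST_stmt) (hWPS : WPS_stmt) (hTOR : TOR_stmt) (hTFS : TFS_stmt)
    (hLST : LST_stmt) : PAR_stmt := by
  intro K _ τ hτ a b m hab β δ hβ hδ hm
  obtain ⟨k, hk, β0, hβ0, hm0, c, c', hcτ, hc'τ, hc, hc', hka, hkb⟩ := hab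
  have hthL : LR th := hRTF.2.2.2.2.2.2.2.2.2.2.2.2.2.1
  have hW : WS (th, β0) (β, δ) := hWST.1 th β0 β δ hthL hβ0 hβ hδ (by rw [hm0, hm])
  obtain ⟨g1, hg1, s, s', hs, hs', h1, h2⟩ := hWPS K τ hτ th β0 β δ hthL.1 hβ0.1 hW
  obtain ⟨α, hαR, hαp, hαβ⟩ := PAR_fin β ((hLST β).1 hβ.1) hβ.2
  have hαL : LR α := ⟨(hLST α).2 hαR, hαp⟩
  have hs0 : ((s : ℤ) : K) ≠ 0 := by
    rcases hs with h | h <;> simp [h]
  have hs0' : ((s' : ℤ) : K) ≠ 0 := by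
    rcases hs' with h | h <;> simp [h]
  set t : K := (c * (s : K))⁻¹ with ht
  have ht0 : t ≠ 0 := inv_ne_zero (mul_ne_zero hc hs0)
  have hτt : τ t = t := by
    rw [ht, map_inv₀, map_mul, hcτ, map_intCast]
  obtain ⟨h, hh, hhE⟩ := hTOR K τ hτ α hαL t hτt ht0
  refine ⟨h * g1 * k, mul_mem (mul_mem hh hg1) hk, c' * (s' : K) * t ^ (ip C6 δ α), ?_, ?_, ?_, ?_⟩
  · rw [map_mul, map_mul, hc'τ, map_intCast, map_zpow₀, hτt]
  · exact mul_ne_zero (mul_ne_zero hc' hs0') (zpow_ne_zero _ ht0)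
  · show h (g1 (k a)) = _
    rw [hka, map_smul, h1, map_smul, map_smul, hhE β hβ.1, hαβ, zpow_one, smul_smul, smul_smul]
    have : c * (s : K) * t = 1 := mul_inv_cancel₀ (mul_ne_zero hc hs0)
    rw [this, one_smul]
  · show h (g1 (k b)) = _
    rw [hkb, map_smul, h2, map_smul, map_smul, hhE δ hδ.1, smul_smul, smul_smul, mul_assoc]

end Pool.Agent.EXT
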