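import Pool.Agent.helper32.EXT.Spec7

/-!
# EXT:CV7: the vectors `c7 i`
-/

set_option autoImplicit false

open Finset

namespace Pool.Agent.EXT

open Pool.Agent.EXC

/-- a letter -/
theorem CV7_XG (K : Type) [Field K] (k : Fin 24) (t : ℤ) (v : Lm C6 K) :
    XG C6 (lt7 k) ((t : K) * (1 : K) ^ (cv7 0 (lt7 k))) v = xe C6 (E C6 (lt7 k)) (t : K) v := by
  rw [one_zpow, mul_one]
  exact (g_XG K (lt7 k) (lt7_LR k).1 (t : K)).1 v

/-- a word on a list -/
theorem CV7_word (K : Type) [Field K] (l0 : List ((Fin 6 → ℤ) × ℤ)) : ∀ l : List (Fin 24 × ℤ),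
    (∀ j : ℕ, ∀ p ∈ (l.drop j).head?, okl7 (lt7 p.1) ((l.drop (j + 1)).foldr (fun p l => xr C6 (lt7 p.1) p.2 l) l0)) →
    gw7 0 (1 : K) l (ls C6 l0) = (ls C6 (l.foldr (fun p l => xr C6 (lt7 p.1) p.2 l) l0) : Lm C6 K) := by
  intro l
  induction l with
  | nil =>
    intro _
    simp [gw7]
  | cons p l ih =>
    intro h
    have h1 := ih fun j q hq => by
      have h2 := h (j + 1) q (by rwa [List.drop_succ_cons])
      rwa [List.drop_succ_cons] at h2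
    have h3 : okl7 (lt7 p.1) (l.foldr (fun p l => xr C6 (lt7 p.1) p.2 l) l0) := by
      have h4 := h 0 p (by simp)
      rwa [List.drop_succ_cons, List.drop_zero] at h4
    have h5 : gw7 0 (1 : K) (p :: l) = XG C6 (lt7 p.1) ((p.2 : K) * (1 : K) ^ (cv7 0 (lt7 p.1))) * gw7 0 (1 : K) l := by
      unfold gw7
      rw [List.map_cons, List.prod_cons]
    rw [h5, LinearEquiv.mul_apply, h1, CV7_XG, List.foldr_cons]
    exact (g_XRL 6 C6 K (lt7 p.1) p.2 _ (lt7_LR p.1).1 h3).1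

theorem CV7_len : ∀ i : Fin 3, (wd7 i).length ≤ 3 := by decide +kernel

/-- the vectors as lists -/
theorem CV7_ls (K : Type) [Field K] (i : Fin 3) : c7 K i = ls C6 (cl7 i) := by
  have h1 : (E C6 (lt7 (bs7 i)) : Lm C6 K) = ls C6 [(lt7 (bs7 i), 1)] := by
    simp [ls]
  unfold c7 cl7
  rw [h1]
  apply CV7_word
  intro j p hp
  rcases lt_or_ge j 3 with hj | hj
  · exact cl7_ok i ⟨j, hj⟩ p hp
  · have h2 : (wd7 i).drop j = [] := List.drop_eq_nil_of_le (le_trans (CV7_len i) hj)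
    rw [h2] at hp
    simp at hp

theorem CV7 : CV7_stmt := by
  intro K _
  have h0 := fun i j => g_FML 6 C6 K (cl7 i) (cl7 j) (cl7_root i) (cl7_root j)
  have h1 : fm C6 (c7 K 0) (c7 K 1) = 1 := by
    rw [CV7_ls, CV7_ls, (h0 0 1).1, fml7, Int.cast_one]
  refine ⟨h1, ?_⟩
  intro κ κ' hκ' h
  have h2 : cf (c7 K 0) ![1, 1, 1, 1, 1, 1] = 0 := by
    rw [CV7_ls, (h0 0 0).2, cfl7.1, Int.cast_zero]
  have h3 : cf (c7 K 2) ![1, 1, 1, 1, 1, 1] = -1 := by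
    rw [CV7_ls, (h0 2 0).2, cfl7.2, Int.cast_neg, Int.cast_one]
  have h4 : κ = 0 := by
    have h5 := congrArg (fun v : Lm C6 K => cf v ![1, 1, 1, 1, 1, 1]) h
    have h6 : cf (κ' • c7 K 0) ![1, 1, 1, 1, 1, 1] = cf (κ • c7 K 2) ![1, 1, 1, 1, 1, 1] := h5
    rw [cf_smul, cf_smul, h2, h3] at h6
    simpa using h6
  rw [h4, zero_smul] at h
  have h7 : c7 K 0 = 0 := (smul_eq_zero.mp h).resolve_left hκ'
  rw [h7, fm_zero_left] at h1
  exact zero_ne_one h1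

end Pool.Agent.EXT
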